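import Mathlib

/-! ZL/S4 (project of helper180 on MP_f569db_ag): rank factorizations of matrices. -/

set_option autoImplicit false

namespace N282.ZL

open Matrix

def Fac {K m : Type*} [Field K] [Fintype m] (q : Matrix m m K) (ρ : ℕ) : Prop :=
  ∃ (A : Matrix m (Fin ρ) K) (B : Matrix (Fin ρ) m K), A * B = q

section

variable {K m n : Type*} [Field K] [Fintype m] [DecidableEq m] [Fintype n] [DecidableEq n]

omit [DecidableEq m] in
theorem fac_of_fintype {ι : Type*} [Fintype ι] (q : Matrix m m K) (ρ : ℕ) (e : ι ≃ Fin ρ)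
    (A : Matrix m ι K) (B : Matrix ι m K) (h : A * B = q) : Fac q ρ := by
  classical
  refine ⟨A.submatrix id e.symm, B.submatrix e.symm id, ?_⟩
  rw [Matrix.submatrix_mul_equiv, h]
  rfl

omit [DecidableEq m] in
theorem fac_mono (q : Matrix m m K) {ρ ρ' : ℕ} (hle : ρ ≤ ρ') (h : Fac q ρ) : Fac q ρ' := by
  classical
  obtain ⟨k, rfl⟩ := Nat.exists_eq_add_of_le hle
  obtain ⟨A, B, hAB⟩ := h
  refine fac_of_fintype q (ρ + k) finSumFinEquiv (Matrix.fromCols A (0 : Matrix m (Fin k) K))
    (Matrix.fromRows B (0 : Matrix (Fin k) m K)) ?_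
  rw [Matrix.fromCols_mul_fromRows, Matrix.zero_mul, add_zero, hAB]

theorem fac_iff (q : Matrix m m K) (ρ : ℕ) : Fac q ρ ↔ q.rank ≤ ρ := by
  constructor
  · rintro ⟨A, B, rfl⟩
    calc (A * B).rank ≤ A.rank := Matrix.rank_mul_le_left A B
      _ ≤ Fintype.card (Fin ρ) := Matrix.rank_le_card_width A
      _ = ρ := Fintype.card_fin ρ
  · intro h
    refine fac_mono q h ?_
    let R : Submodule K (m → K) := LinearMap.range q.mulVecLin
    have hR : Module.finrank K R = q.rank := rfl
    let b : Module.Basis (Fin q.rank) K R := Module.finBasisOfFinrankEq K R hR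
    refine ⟨Matrix.of fun i j => (b j : m → K) i,
      Matrix.of fun j i => b.repr ⟨q.mulVecLin (Pi.single i 1), LinearMap.mem_range_self _ _⟩ j, ?_⟩
    ext i k
    rw [Matrix.mul_apply]
    have h1 := b.sum_repr ⟨q.mulVecLin (Pi.single k 1), LinearMap.mem_range_self _ _⟩
    have h2 := congrArg (fun v : R => (v : m → K) i) h1
    simp only [Submodule.coe_sum, Submodule.coe_smul, Finset.sum_apply, Pi.smul_apply,
      smul_eq_mul, Matrix.mulVecLin_apply, Matrix.mulVec_single_one, Matrix.col_apply] at h2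
    rw [← h2]
    refine Finset.sum_congr rfl fun j _ => ?_
    simp only [Matrix.of_apply, Matrix.mulVecLin_apply, Matrix.mulVec_single_one]
    rw [mul_comm]

theorem fac_compl (q : Matrix m m K) (ρ : ℕ) (A : Matrix m (Fin ρ) K) (B : Matrix (Fin ρ) m K)
    (h1 : A * B = q) (h2 : B * A = 1) : ρ ≤ Fintype.card m ∧ Fac (1 - q) (Fintype.card m - ρ) := by
  have hr : ρ ≤ q.rank := by
    have h3 : B * q * A = (1 : Matrix (Fin ρ) (Fin ρ) K) := by
      rw [← h1, ← Matrix.mul_assoc, h2, Matrix.one_mul, h2]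
    calc ρ = (1 : Matrix (Fin ρ) (Fin ρ) K).rank := by rw [Matrix.rank_one, Fintype.card_fin]
      _ = (B * q * A).rank := by rw [h3]
      _ ≤ (B * q).rank := Matrix.rank_mul_le_left _ _
      _ ≤ q.rank := Matrix.rank_mul_le_right _ _
  have hc : q.rank ≤ Fintype.card m := Matrix.rank_le_card_width q
  refine ⟨hr.trans hc, (fac_iff _ _).2 ?_⟩
  have h0 : q * (1 - q) = 0 := by
    rw [Matrix.mul_sub, Matrix.mul_one, ← h1, Matrix.mul_assoc, ← Matrix.mul_assoc B, h2,
      Matrix.one_mul, sub_self]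
  have h4 := Matrix.rank_add_rank_le_card_of_mul_eq_zero h0
  omega

theorem fac_lt (q s : Matrix m m K) (c : ℕ) (hs : Fac s c) (hss : s * s = s) (hq : q * q = q)
    (h1 : s * q = q) (h2 : q * s = q) (hne : q ≠ s) : Fac q (c - 1) ∧ 1 ≤ c := by
  have hsc := (fac_iff s c).1 hs
  have hlt : q.rank < s.rank := by
    have hle : LinearMap.range q.mulVecLin ≤ LinearMap.range s.mulVecLin := by
      rintro v ⟨w, rfl⟩
      refine ⟨q.mulVec w, ?_⟩
      simp only [Matrix.mulVecLin_apply, Matrix.mulVec_mulVec, h1]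
    refine lt_of_le_of_ne (Submodule.finrank_mono hle) fun heq => hne ?_
    have hR : LinearMap.range q.mulVecLin = LinearMap.range s.mulVecLin :=
      Submodule.eq_of_le_of_finrank_eq hle heq
    have hqs : q * s = s := by
      apply Matrix.ext_of_mulVec_single
      intro i
      have hmem : s.mulVecLin (Pi.single i 1) ∈ LinearMap.range q.mulVecLin := by
        rw [hR]; exact LinearMap.mem_range_self _ _
      obtain ⟨w, hw⟩ := hmem
      simp only [Matrix.mulVecLin_apply] at hw
      rw [← Matrix.mulVec_mulVec, ← hw, Matrix.mulVec_mulVec, hq]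
    rw [← h2, hqs]
  exact ⟨(fac_iff q (c - 1)).2 (by omega), by omega⟩

omit [DecidableEq m] in
theorem fac_kron {m' : Type*} [Fintype m'] (q : Matrix m m K) (q' : Matrix m' m' K) (ρ ρ' : ℕ)
    (h : Fac q ρ) (h' : Fac q' ρ') : Fac (Matrix.kroneckerMap (· * ·) q q') (ρ * ρ') := by
  obtain ⟨A, B, rfl⟩ := h
  obtain ⟨A', B', rfl⟩ := h'
  refine fac_of_fintype _ (ρ * ρ') finProdFinEquiv (Matrix.kroneckerMap (· * ·) A A')
    (Matrix.kroneckerMap (· * ·) B B') ?_
  exact (Matrix.mul_kronecker_mul A B A' B').symm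

omit [DecidableEq m] in
theorem fac_transpose (q : Matrix m m K) (ρ : ℕ) (h : Fac q ρ) : Fac qᵀ ρ := by
  obtain ⟨A, B, rfl⟩ := h
  exact ⟨Bᵀ, Aᵀ, (Matrix.transpose_mul A B).symm⟩

omit [DecidableEq m] [DecidableEq n] in
theorem fac_reindex (q : Matrix m m K) (ρ : ℕ) (e : m ≃ n) (h : Fac q ρ) :
    Fac (q.submatrix e.symm e.symm : Matrix n n K) ρ := by
  obtain ⟨A, B, rfl⟩ := h
  refine ⟨A.submatrix e.symm id, B.submatrix id e.symm, ?_⟩
  ext i j
  simp [Matrix.mul_apply]

omit [DecidableEq m] [DecidableEq n] in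
theorem fac_bound {n : Type*} [Fintype n] (q : Matrix m m K) (ρ : ℕ) (h : Fac q ρ)
    (X : Submodule K (Matrix n m K)) (hX : ∀ M ∈ X, M * q = M) :
    Module.finrank K X ≤ Fintype.card n * ρ := by
  obtain ⟨A, B, rfl⟩ := h
  let f : Matrix n (Fin ρ) K →ₗ[K] Matrix n m K :=
    { toFun := fun M => M * B
      map_add' := fun M N => Matrix.add_mul M N B
      map_smul' := fun c M => Matrix.smul_mul c M B }
  have hle : X ≤ LinearMap.range f := by
    intro M hM
    refine ⟨M * A, ?_⟩
    change M * A * B = M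
    rw [Matrix.mul_assoc]
    exact hX M hM
  calc Module.finrank K X ≤ Module.finrank K (LinearMap.range f) := Submodule.finrank_mono hle
    _ ≤ Module.finrank K (Matrix n (Fin ρ) K) := LinearMap.finrank_range_le f
    _ = Fintype.card n * ρ := by
      rw [Module.finrank_matrix, Module.finrank_self, mul_one, Fintype.card_fin]

end

end N282.ZL
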